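import Mathlib
import Pool.Agent.R493.SI.Win
import Pool.Agent.R493.ST.TrC
/-!
# Exact gaps between consecutive primes which are common to several sequences of scales
-/

namespace Pool.Agent.R493.CG

open Finset Filter
open Pool.Agent.R493.SI (RamseyFour)

/-- the primes `p ≡ a (mod q)` for which the primes strictly between `p - P` and `p + d + P` are exactly
`p` and `p + d` -/
def IsoGap (q a P d p : ℕ) : Prop :=
  p.Prime ∧ (p + d).Prime ∧ p ≡ a [MOD q] ∧
    ∀ m : ℕ, m.Prime → p < m + P → m < p + d + P → m = p ∨ m = p + d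

/-- the number of these primes up to `x` -/
noncomputable def isoN (q a P d : ℕ) (x : ℝ) : ℕ := {p : ℕ | (p : ℝ) ≤ x ∧ IsoGap q a P d p}.ncard

/-- adjacent elements of a finite set which lie in different classes -/
theorem adjacent {β : Type*} (T : Finset ℕ) (f : ℕ → β) {u v : ℕ} (hu : u ∈ T) (hv : v ∈ T)
    (huv : u < v) (hf : f u ≠ f v) :
    ∃ u' ∈ T, ∃ v' ∈ T, u' < v' ∧ f u' ≠ f v' ∧ ∀ w ∈ T, w ≤ u' ∨ v' ≤ w := by
  classical
  -- the least element above `u` whose class is not that of `u`
  set D := T.filter (fun w => u < w ∧ f w ≠ f u) with hD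
  have hvD : v ∈ D := mem_filter.2 ⟨hv, huv, fun h => hf h.symm⟩
  set v' := D.min' ⟨v, hvD⟩ with hv'
  have hv'D : v' ∈ D := D.min'_mem _
  obtain ⟨h1, h2, h3⟩ := mem_filter.1 hv'D
  -- the greatest element below `v'`
  set E := T.filter (fun w => w < v') with hE
  have huE : u ∈ E := mem_filter.2 ⟨hu, h2⟩
  set u' := E.max' ⟨u, huE⟩ with hu'
  have hu'E : u' ∈ E := E.max'_mem _
  obtain ⟨h4, h5⟩ := mem_filter.1 hu'E
  have h6 : u ≤ u' := E.le_max' u huE
  refine ⟨u', h4, v', h1, h5, ?_, fun w hw => ?_⟩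
  · have h7 : f u' = f u := by
      by_contra hne
      rcases h6.lt_or_eq with h8 | h8
      · have h9 : u' ∈ D := mem_filter.2 ⟨h4, h8, hne⟩
        have h10 := D.min'_le u' h9
        omega
      · exact hne (by rw [← h8])
    rw [h7]
    exact fun h => h3 h.symm
  · by_cases h8 : w < v'
    · left
      exact E.le_max' w (mem_filter.2 ⟨hw, h8⟩)
    · right
      omega

end Pool.Agent.R493.CG
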