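import Mathlib
import Pool.Agent.R493.CG.Four
import Pool.Agent.R493.CG.Seq
/-!
# The share of the gaps between consecutive primes which are common to several sequences of scales
-/

namespace Pool.Agent.R493.CG

open Finset Filter
open Pool.Agent.R493.SI (RamseyFour exists_ramseyFour)

theorem ramsey_one : RamseyFour 1 4 := by
  intro c
  refine ⟨univ, 0, by simp, fun i _ j _ _ => Subsingleton.elim _ _⟩

theorem windows : ∃ B P₀ : ℕ, 0 < P₀ ∧ ∀ R r : ℕ, 2 ≤ r → RamseyFour R r → ∀ P : ℕ, 0 < P → P₀ ∣ P →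
    ∀ q a : Fin R → ℕ, (∀ ρ, 1 ≤ q ρ ∧ q ρ ∣ P ∧ (a ρ).Coprime (q ρ)) →
    ∀ X : Fin R → ℕ → ℝ, (∀ ρ, Tendsto (X ρ) atTop atTop) → ∀ ε : ℝ, 0 < ε →
    ∃ L : ℕ, ∀ T : ℕ, L ≤ T → ∀ u : ℕ, (1 / ((r : ℝ) - 1) - ε) * T ≤
      ({k : ℕ | u < k ∧ k ≤ u + T ∧ ∃ᶠ s : ℕ in atTop, ∀ ρ,
        X ρ s / Real.log (X ρ s) ^ B ≤ (isoN (q ρ) (a ρ) P (P * k) (X ρ s) : ℝ)}.ncard : ℝ) := by
  classical
  obtain ⟨K, B, P₀, hP₀, h⟩ := four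
  refine ⟨B, P₀, hP₀, ?_⟩
  intro R r hr hRam P hP hPP q a hqa X hX ε hε
  obtain ⟨L, hL⟩ := winSeq R r K hr hRam (fun ρ s k => X ρ s / Real.log (X ρ s) ^ B ≤
      (isoN (q ρ) (a ρ) P (P * k) (X ρ s) : ℝ)) (by
    intro ρ A hA hlt
    obtain ⟨h1, h2, h3⟩ := hqa ρ
    exact (hX ρ).eventually (h P (q ρ) (a ρ) hP hPP h1 h2 h3 A hA hlt)) ε hε
  refine ⟨L, fun T hT u => (hL T hT u).trans (le_of_eq ?_)⟩
  rw [← Set.ncard_coe_finset]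
  congr 2
  ext k
  simp only [coe_filter, mem_Ioc, Set.mem_setOf_eq]
  tauto

end Pool.Agent.R493.CG
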